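import Pool.Agent.H23.GC.Targets2

/-!
# Perfect spanning sets of large size: modules PP and PQ (helper4)
-/

set_option autoImplicit false

open Finset Pool.Agent.H23.GW Pool.Agent.H23.GC
open scoped Classical Nat

namespace Pool.Agent.H4.GC

noncomputable section

variable {ι : Type} [Fintype ι]

lemma nrm_neg (c : ι → ℤ) : nrm (-c) = nrm c := by
  simp [nrm]

lemma ell_neg (c : ι → ℤ) : ell (-c) = ell c := by
  simp [ell]

lemma nrm_of_mem {n : ℕ} {c : ι → ℤ} (h : c ∈ Vn ι n) : nrm c = n :=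
  (mem_filter.1 h).2

omit [Fintype ι] in
lemma vs_elim {κ₁ κ₂ : Type} [Fintype κ₁] [Fintype κ₂] (w : κ₁ → ι × Bool) (u : κ₂ → ι × Bool) :
    vs (Sum.elim w u) = vs w + vs u := by
  simp [vs, Fintype.sum_sum_type]

/-- lower bound for the number of reduced words by pairs. -/
lemma words_ge {G : Type} [AddCommGroup G] (ev : (ι → ℤ) →+ G) {κ₁ κ₂ : Type} [Fintype κ₁]
    [Fintype κ₂] (P : Finset ((ι → ℤ) × (ι → ℤ))) (p₁ : (κ₁ → ι × Bool) → Prop)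
    (p₂ : (κ₂ → ι × Bool) → Prop) [DecidablePred p₁] [DecidablePred p₂] (a b : ℕ)
    (ha : ∀ q ∈ P, a ≤ #{w : κ₁ → ι × Bool | vs w = q.1 ∧ p₁ w})
    (hb : ∀ q ∈ P, b ≤ #{u : κ₂ → ι × Bool | vs u = -q.2 ∧ p₂ u})
    (hn : ∀ q ∈ P, nrm (q.1 - q.2) = Fintype.card (κ₁ ⊕ κ₂))
    (he : ∀ q ∈ P, ev q.1 = ev q.2) :
    #P * (a * b) ≤ #{z ∈ Zr ev (κ₁ ⊕ κ₂) | p₁ (fun x => z (Sum.inl x)) ∧
      p₂ (fun x => z (Sum.inr x))} := by
  set Z := {z ∈ Zr ev (κ₁ ⊕ κ₂) | p₁ (fun x => z (Sum.inl x)) ∧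
      p₂ (fun x => z (Sum.inr x))} with hZ
  let f : (κ₁ ⊕ κ₂ → ι × Bool) → (ι → ℤ) × (ι → ℤ) := fun z =>
    (vs (fun x => z (Sum.inl x)), -vs (fun x => z (Sum.inr x)))
  have h1 : ∑ q ∈ P, #{z ∈ Z | f z = q} ≤ #Z := by
    have h2 : #{z ∈ Z | f z ∈ P} = ∑ q ∈ P, #{z ∈ {z ∈ Z | f z ∈ P} | f z = q} :=
      card_eq_sum_card_fiberwise fun z hz => (mem_filter.1 hz).2
    have h3 : ∀ q ∈ P, #{z ∈ Z | f z = q} ≤ #{z ∈ {z ∈ Z | f z ∈ P} | f z = q} := by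
      intro q hq
      refine card_le_card fun z hz => ?_
      rw [mem_filter] at hz
      rw [mem_filter, mem_filter]
      exact ⟨⟨hz.1, by rw [hz.2]; exact hq⟩, hz.2⟩
    calc ∑ q ∈ P, #{z ∈ Z | f z = q} ≤ ∑ q ∈ P, #{z ∈ {z ∈ Z | f z ∈ P} | f z = q} :=
          sum_le_sum h3
      _ = #{z ∈ Z | f z ∈ P} := h2.symm
      _ ≤ #Z := card_le_card (filter_subset _ _)
  refine le_trans ?_ h1
  rw [← smul_eq_mul, ← sum_const]
  refine sum_le_sum fun q hq => ?_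
  refine (Nat.mul_le_mul (ha q hq) (hb q hq)).trans ?_
  rw [← card_product]
  refine card_le_card_of_injOn (fun p => Sum.elim p.1 p.2) ?_ ?_
  · intro p hp
    rw [mem_coe, mem_product, mem_filter, mem_filter] at hp
    obtain ⟨⟨-, hp1, hp2⟩, -, hp3, hp4⟩ := hp
    have h4 : vs (Sum.elim p.1 p.2) = q.1 - q.2 := by
      rw [vs_elim, hp1, hp3, sub_eq_add_neg]
    rw [mem_coe, mem_filter, hZ, mem_filter, Zr, mem_filter]
    refine ⟨⟨⟨@mem_univ _ (_) _, ?_, ?_⟩, ?_, ?_⟩, ?_⟩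
    · rw [h4]; exact hn q hq
    · rw [h4, map_sub, he q hq, sub_self]
    · exact hp2
    · exact hp4
    · exact Prod.ext hp1 (by
        change -vs p.2 = q.2
        rw [hp3, neg_neg])
  · intro p _ p' _ h
    have h5 : Sum.elim p.1 p.2 = Sum.elim p'.1 p'.2 := h
    refine Prod.ext ?_ ?_
    · funext x
      exact congrFun h5 (Sum.inl x)
    · funext x
      exact congrFun h5 (Sum.inr x)

/-- norm of the difference, equal norms. -/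
lemma diff_even {G : Type} [AddCommGroup G] {s : ℕ} {ev : (ι → ℤ) →+ G} (hL : T_L)
    (hPC : PC s ev) {c d : ι → ℤ} (hc : nrm c = s + 1) (hd : nrm d = s + 1) (hne : c ≠ d)
    (he : ev c = ev d) : nrm (c - d) = 2 * s + 2 := by
  obtain ⟨-, h⟩ := hL ι G s ev hPC
  obtain ⟨h1, h2, h3⟩ := h c d hne he
  rw [hc, hd] at h2 h3
  obtain ⟨r, hr⟩ := h3
  omega

lemma diff_odd {G : Type} [AddCommGroup G] {s : ℕ} {ev : (ι → ℤ) →+ G} (hL : T_L)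
    (hPC : PC s ev) {c d : ι → ℤ} (hc : nrm c = s) (hd : nrm d = s + 1)
    (he : ev c = ev d) : nrm (c - d) = 2 * s + 1 := by
  obtain ⟨-, h⟩ := hL ι G s ev hPC
  have hne : c ≠ d := by
    rintro rfl
    omega
  obtain ⟨h1, h2, -⟩ := h c d hne he
  rw [hc, hd] at h2
  omega

lemma word_one (hW : T_W) {κ : Type} [Fintype κ] {n : ℕ} (hκ : Fintype.card κ = n)
    (c : ι → ℤ) (hc : nrm c = n) (hl : ell c + 1 = n) (i j : κ) (hij : i ≠ j) :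
    #{w : κ → ι × Bool | vs w = c ∧ w i = w j} = (n - 2)! := by
  have h := ((hW ι κ).2 c (by rw [hc, hκ])).2.2.2.1 i j hij (by rw [hκ]; exact hl)
  rw [hκ] at h
  exact h

lemma word_two (hW2 : T_W2) {κ : Type} [Fintype κ] {n : ℕ} (hκ : Fintype.card κ = n)
    (c : ι → ℤ) (hc : nrm c = n) (hl : ell c + 2 = n) (i j : κ) (hij : i ≠ j) :
    #{w : κ → ι × Bool | vs w = c ∧ w i = w j} = (n - 2)! := by
  have h := (hW2 ι κ c (by rw [hc, hκ])).2.2.1 i j hij (by rw [hκ]; exact hl)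
  rw [hκ] at h
  exact h

/-- two or three coincidences in the second word. -/
lemma word_four (hW2 : T_W2) {κ : Type} [Fintype κ] {n : ℕ} (hκ : Fintype.card κ = n)
    (c : ι → ℤ) (hc : nrm c = n) (hl : ell c + 2 = n) (h2 : ∀ x, (c x).natAbs ≤ 2)
    (i j k l : κ) (hnd : [i, j, k, l].Nodup) :
    #{w : κ → ι × Bool | vs w = c ∧ w i = w j ∧ w k = w l} = 2 * (n - 4)! := by
  have h := (hW2 ι κ c (by rw [hc, hκ])).2.2.2.1 i j k l hnd (by rw [hκ]; exact hl) h2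
  rw [hκ] at h
  exact h

lemma word_three (hW2 : T_W2) {κ : Type} [Fintype κ] {n : ℕ} (hκ : Fintype.card κ = n)
    (c : ι → ℤ) (hc : nrm c = n) (hl : ell c + 2 = n) (h2 : ∃ x, 3 ≤ (c x).natAbs)
    (i j k : κ) (hnd : [i, j, k].Nodup) :
    #{w : κ → ι × Bool | vs w = c ∧ w i = w j ∧ w j = w k} = (n - 3)! := by
  have h := (hW2 ι κ c (by rw [hc, hκ])).2.2.2.2 i j k hnd (by rw [hκ]; exact hl) h2
  rw [hκ] at h
  exact h

lemma nodup_sum {κ₁ κ₂ : Type} {i j : κ₁} {k l : κ₂} (hij : i ≠ j) (hkl : k ≠ l) :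
    [(Sum.inl i : κ₁ ⊕ κ₂), Sum.inl j, Sum.inr k, Sum.inr l].Nodup := by
  simp [hij, hkl]

lemma pp_aux (hL : T_L) (hW : T_W) (hW2 : T_W2) {s : ℕ} (hs : 6 ≤ s) (C : ℝ)
    {G : Type} [AddCommGroup G] (ev : (ι → ℤ) →+ G) (hPC : PC s ev)
    {κ₁ κ₂ : Type} [Fintype κ₁] [Fintype κ₂] (hκ₁ : Fintype.card κ₁ = s + 1)
    (hκ₂ : Fintype.card κ₂ = s + 1) (i j : κ₁) (hij : i ≠ j) (k l : κ₂) (hkl : k ≠ l)
    (h0 : (#{z ∈ Zr ev (κ₁ ⊕ κ₂) | z (Sum.inl i) = z (Sum.inl j) ∧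
      z (Sum.inr k) = z (Sum.inr l)} : ℝ) ≤
      s ! * (s ! * #{d ∈ Vn ι s | ell d = s} - s * (2 * Fintype.card ι : ℝ) ^ (s - 1)) +
        C * (Fintype.card ι : ℝ) ^ (s - 2)) :
    ((#{q ∈ Vn ι (s + 1) ×ˢ Vn ι (s + 1) | ev q.1 = ev q.2 ∧ q.1 ≠ q.2 ∧
        ell q.1 = s ∧ ell q.2 = s} : ℝ) +
      2 * #{q ∈ Vn ι (s + 1) ×ˢ Vn ι (s + 1) | ev q.1 = ev q.2 ∧ q.1 ≠ q.2 ∧
        ell q.1 = s ∧ ell q.2 + 1 = s} ≤
      s ^ 2 * #{d ∈ Vn ι s | ell d = s} -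
        s ^ 2 / (s - 1)! * (2 * Fintype.card ι : ℝ) ^ (s - 1) +
        C / ((s - 1)! : ℝ) ^ 2 * (Fintype.card ι : ℝ) ^ (s - 2)) := by
  set P11 := {q ∈ Vn ι (s + 1) ×ˢ Vn ι (s + 1) | ev q.1 = ev q.2 ∧ q.1 ≠ q.2 ∧
        ell q.1 = s ∧ ell q.2 = s} with hP11
  set P12 := {q ∈ Vn ι (s + 1) ×ˢ Vn ι (s + 1) | ev q.1 = ev q.2 ∧ q.1 ≠ q.2 ∧
        ell q.1 = s ∧ ell q.2 + 1 = s} with hP12
  set P21 := {q ∈ Vn ι (s + 1) ×ˢ Vn ι (s + 1) | ev q.1 = ev q.2 ∧ q.1 ≠ q.2 ∧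
        ell q.1 + 1 = s ∧ ell q.2 = s} with hP21
  have hsw : #P21 = #P12 := by
    refine card_bij (fun q _ => (q.2, q.1)) ?_ ?_ ?_
    · intro q hq
      rw [hP21, mem_filter, mem_product] at hq
      rw [hP12, mem_filter, mem_product]
      exact ⟨⟨hq.1.2, hq.1.1⟩, hq.2.1.symm, hq.2.2.1.symm, hq.2.2.2.2, hq.2.2.2.1⟩
    · intro q _ q' _ h
      have h' := Prod.ext_iff.1 h
      exact Prod.ext h'.2 h'.1
    · intro q hq
      rw [hP12, mem_filter, mem_product] at hq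
      refine ⟨(q.2, q.1), ?_, rfl⟩
      rw [hP21, mem_filter, mem_product]
      exact ⟨⟨hq.1.2, hq.1.1⟩, hq.2.1.symm, hq.2.2.1.symm, hq.2.2.2.2, hq.2.2.2.1⟩
  have hd1 : Disjoint P11 P12 := by
    rw [Finset.disjoint_left]
    intro q h1 h2
    rw [hP11, mem_filter] at h1
    rw [hP12, mem_filter] at h2
    have := h1.2.2.2.2
    have := h2.2.2.2.2
    omega
  have hd2 : Disjoint (P11 ∪ P12) P21 := by
    rw [Finset.disjoint_left]
    intro q h1 h2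
    rw [mem_union, hP11, hP12, mem_filter, mem_filter] at h1
    rw [hP21, mem_filter] at h2
    have := h2.2.2.2.1
    rcases h1 with h1 | h1
    · have := h1.2.2.2.1
      omega
    · have := h1.2.2.2.1
      omega
  have hcard : #((P11 ∪ P12) ∪ P21) = #P11 + 2 * #P12 := by
    rw [card_union_of_disjoint hd2, card_union_of_disjoint hd1, hsw]
    ring
  -- every pair is of the following kind
  have hmem : ∀ q ∈ (P11 ∪ P12) ∪ P21, nrm q.1 = s + 1 ∧ nrm q.2 = s + 1 ∧ ev q.1 = ev q.2 ∧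
      q.1 ≠ q.2 ∧ (ell q.1 = s ∨ ell q.1 + 1 = s) ∧ (ell q.2 = s ∨ ell q.2 + 1 = s) := by
    intro q hq
    rw [mem_union, mem_union, hP11, hP12, hP21, mem_filter, mem_filter, mem_filter,
      mem_product] at hq
    rcases hq with (hq | hq) | hq
    · exact ⟨nrm_of_mem hq.1.1, nrm_of_mem hq.1.2, hq.2.1, hq.2.2.1, Or.inl hq.2.2.2.1,
        Or.inl hq.2.2.2.2⟩
    · exact ⟨nrm_of_mem hq.1.1, nrm_of_mem hq.1.2, hq.2.1, hq.2.2.1, Or.inl hq.2.2.2.1,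
        Or.inr hq.2.2.2.2⟩
    · exact ⟨nrm_of_mem hq.1.1, nrm_of_mem hq.1.2, hq.2.1, hq.2.2.1, Or.inr hq.2.2.2.1,
        Or.inl hq.2.2.2.2⟩
  have hword : ∀ {κ : Type} [Fintype κ] (hκ : Fintype.card κ = s + 1) (i j : κ) (hij : i ≠ j)
      (c : ι → ℤ), nrm c = s + 1 → (ell c = s ∨ ell c + 1 = s) →
      (s - 1)! ≤ #{w : κ → ι × Bool | vs w = c ∧ w i = w j} := by
    intro κ _ hκ i j hij c hc hl
    rcases hl with hl | hl
    · rw [word_one hW hκ c hc (by omega) i j hij]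
      exact le_of_eq (by congr 1)
    · rw [word_two hW2 hκ c hc (by omega) i j hij]
      exact le_of_eq (by congr 1)
  have hmain := words_ge ev (κ₁ := κ₁) (κ₂ := κ₂) ((P11 ∪ P12) ∪ P21)
    (fun w => w i = w j) (fun u => u k = u l)
    (s - 1)! (s - 1)!
    (fun q hq => hword hκ₁ i j hij q.1 (hmem q hq).1 (hmem q hq).2.2.2.2.1)
    (fun q hq => hword hκ₂ k l hkl (-q.2) (by rw [nrm_neg]; exact (hmem q hq).2.1)
      (by rw [ell_neg]; exact (hmem q hq).2.2.2.2.2))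
    (fun q hq => by
      rw [Fintype.card_sum, hκ₁, hκ₂,
        diff_even hL hPC (hmem q hq).1 (hmem q hq).2.1 (hmem q hq).2.2.2.1 (hmem q hq).2.2.1]
      ring)
    (fun q hq => (hmem q hq).2.2.1)
  rw [hcard] at hmain
  have h1 : (((#P11 + 2 * #P12) * ((s - 1)! * (s - 1)!) : ℕ) : ℝ) ≤
      s ! * (s ! * #{d ∈ Vn ι s | ell d = s} - s * (2 * Fintype.card ι : ℝ) ^ (s - 1)) +
        C * (Fintype.card ι : ℝ) ^ (s - 2) := le_trans (by exact_mod_cast hmain) h0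
  have hf : (s ! : ℝ) = s * (s - 1)! := by
    have : s ! = s * (s - 1)! := (Nat.mul_factorial_pred (by omega)).symm
    exact_mod_cast this
  have hp : (0 : ℝ) < ((s - 1)! : ℝ) := by exact_mod_cast Nat.factorial_pos _
  push_cast at h1
  rw [hf] at h1
  have h2 : ((#P11 : ℝ) + 2 * #P12) * ((s - 1)! : ℝ) ^ 2 ≤
      (s ^ 2 * #{d ∈ Vn ι s | ell d = s} -
        s ^ 2 / (s - 1)! * (2 * Fintype.card ι : ℝ) ^ (s - 1) +
        C / ((s - 1)! : ℝ) ^ 2 * (Fintype.card ι : ℝ) ^ (s - 2)) * ((s - 1)! : ℝ) ^ 2 := by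
    have h3 : (s ^ 2 * #{d ∈ Vn ι s | ell d = s} -
        s ^ 2 / (s - 1)! * (2 * Fintype.card ι : ℝ) ^ (s - 1) +
        C / ((s - 1)! : ℝ) ^ 2 * (Fintype.card ι : ℝ) ^ (s - 2)) * ((s - 1)! : ℝ) ^ 2 =
        s * (s - 1)! * (s * (s - 1)! * #{d ∈ Vn ι s | ell d = s} -
          s * (2 * Fintype.card ι : ℝ) ^ (s - 1)) + C * (Fintype.card ι : ℝ) ^ (s - 2) := by
      field_simp
    rw [h3]
    calc ((#P11 : ℝ) + 2 * #P12) * ((s - 1)! : ℝ) ^ 2 =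
        ((#P11 : ℝ) + 2 * #P12) * (((s - 1)! : ℝ) * (s - 1)!) := by ring
      _ ≤ _ := h1
  exact le_of_mul_le_mul_right h2 (by positivity)

theorem pp (hL : T_L) (hW : T_W) (hW2 : T_W2) (hZ2 : T_Z2) : T_PP := by
  intro s hs
  obtain ⟨C, hC⟩ := hZ2 s hs
  refine ⟨C / ((s - 1)! : ℝ) ^ 2, ?_⟩
  intro ι _ G _ ev hPC hm
  have hne : (⟨0, by omega⟩ : Fin (s + 1)) ≠ ⟨1, by omega⟩ := by simp
  exact pp_aux hL hW hW2 hs C ev hPC (Fintype.card_fin _) (Fintype.card_fin _) _ _ hne _ _ hne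
    (hC ι G ev hPC hm (Fin (s + 1) ⊕ Fin (s + 1))
      (by rw [Fintype.card_sum, Fintype.card_fin]; ring) _ _ _ _ (nodup_sum hne hne))

/-! ## PQ -/

lemma pq_one (hL : T_L) (hW : T_W) (hW2 : T_W2) (hZU : T_ZU) {s : ℕ} (hs : 4 ≤ s)
    {G : Type} [AddCommGroup G] (ev : (ι → ℤ) →+ G) (hPC : PC s ev)
    {κ₁ κ₂ : Type} [Fintype κ₁] [Fintype κ₂] (hκ₁ : Fintype.card κ₁ = s + 1)
    (hκ₂ : Fintype.card κ₂ = s + 1) (i j : κ₁) (hij : i ≠ j) (k l m n : κ₂)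
    (hnd : [k, l, m, n].Nodup) :
    2 * (s - 2)! * #{q ∈ Vn ι (s + 1) ×ˢ Vn ι (s + 1) | ev q.1 = ev q.2 ∧ q.1 ≠ q.2 ∧
        ell q.1 = s ∧ ell q.2 + 1 = s} ≤ s ^ 2 * (2 * Fintype.card ι) ^ (s - 1) := by
  have hcards : Fintype.card (κ₁ ⊕ κ₂) = 2 * s + 2 := by
    rw [Fintype.card_sum, hκ₁, hκ₂]; ring
  have hZ := (hZU s ι G ev hPC hs (κ₁ ⊕ κ₂)).2 hcards
  have hnd' := hnd
  simp only [List.nodup_cons, List.mem_cons, List.not_mem_nil, or_false, not_or,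
    not_false_eq_true, and_true, List.nodup_nil] at hnd'
  obtain ⟨⟨hkl, hkm, hkn⟩, ⟨hlm, hln⟩, hmn⟩ := hnd'
  set P := {q ∈ Vn ι (s + 1) ×ˢ Vn ι (s + 1) | ev q.1 = ev q.2 ∧ q.1 ≠ q.2 ∧
        ell q.1 = s ∧ ell q.2 + 1 = s} with hP
  have hmem : ∀ q ∈ P, nrm q.1 = s + 1 ∧ nrm q.2 = s + 1 ∧ ev q.1 = ev q.2 ∧
      q.1 ≠ q.2 ∧ ell q.1 = s ∧ ell q.2 + 1 = s := by
    intro q hq
    rw [hP, mem_filter, mem_product] at hq
    exact ⟨nrm_of_mem hq.1.1, nrm_of_mem hq.1.2, hq.2.1, hq.2.2.1, hq.2.2.2.1, hq.2.2.2.2⟩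
  have hf : s ! = s * (s - 1)! := (Nat.mul_factorial_pred (by omega)).symm
  have hf2 : (s - 2)! = (s - 2) * (s - 3)! := by
    have := (Nat.mul_factorial_pred (n := s - 2) (by omega)).symm
    rw [this]
    congr 1
  have hp : 0 < (s - 1)! := Nat.factorial_pos _
  -- pairs with two doubled coordinates
  have hX : 2 * (s - 2)! * #{q ∈ P | ∀ x, (q.2 x).natAbs ≤ 2} ≤
      s * (s - 2) * (2 * Fintype.card ι) ^ (s - 1) := by
    have h1 := words_ge ev (κ₁ := κ₁) (κ₂ := κ₂) {q ∈ P | ∀ x, (q.2 x).natAbs ≤ 2}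
      (fun w => w i = w j) (fun u => u k = u l ∧ u m = u n) (s - 1)! (2 * (s - 3)!)
      (fun q hq => by
        obtain ⟨h1, h2, h3, h4, h5, h6⟩ := hmem q (mem_filter.1 hq).1
        rw [word_one hW hκ₁ q.1 h1 (by omega) i j hij]
        exact le_of_eq (by congr 1))
      (fun q hq => by
        obtain ⟨h1, h2, h3, h4, h5, h6⟩ := hmem q (mem_filter.1 hq).1
        rw [word_four hW2 hκ₂ (-q.2) (by rw [nrm_neg]; exact h2) (by rw [ell_neg]; omega)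
          (fun x => by
            rw [Pi.neg_apply, Int.natAbs_neg]
            exact (mem_filter.1 hq).2 x) k l m n hnd]
        exact le_of_eq (by congr 1))
      (fun q hq => by
        obtain ⟨h1, h2, h3, h4, h5, h6⟩ := hmem q (mem_filter.1 hq).1
        rw [hcards, diff_even hL hPC h1 h2 h4 h3])
      (fun q hq => (hmem q (mem_filter.1 hq).1).2.2.1)
    have h2 := (hZ (Sum.inl i) (Sum.inl j) (Sum.inr k) (Sum.inr l) (Sum.inr m) (Sum.inr n)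
      (by simp [hij, hkl, hkm, hkn, hlm, hln, hmn])).1
    have h3 := h1.trans h2
    rw [hf] at h3
    have h4 : (s - 1)! * (#{q ∈ P | ∀ x, (q.2 x).natAbs ≤ 2} * (2 * (s - 3)!)) ≤
        (s - 1)! * (s * (2 * Fintype.card ι) ^ (s - 1)) := by
      calc (s - 1)! * (#{q ∈ P | ∀ x, (q.2 x).natAbs ≤ 2} * (2 * (s - 3)!)) =
          #{q ∈ P | ∀ x, (q.2 x).natAbs ≤ 2} * ((s - 1)! * (2 * (s - 3)!)) := by ring
        _ ≤ s * (s - 1)! * (2 * Fintype.card ι) ^ (s - 1) := h3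
        _ = _ := by ring
    have h5 := Nat.le_of_mul_le_mul_left h4 hp
    calc 2 * (s - 2)! * #{q ∈ P | ∀ x, (q.2 x).natAbs ≤ 2} =
        (s - 2) * (#{q ∈ P | ∀ x, (q.2 x).natAbs ≤ 2} * (2 * (s - 3)!)) := by
          rw [hf2]; ring
      _ ≤ (s - 2) * (s * (2 * Fintype.card ι) ^ (s - 1)) := Nat.mul_le_mul_left _ h5
      _ = _ := by ring
  -- pairs with a tripled coordinate
  have hX' : 2 * (s - 2)! * #{q ∈ P | ¬ ∀ x, (q.2 x).natAbs ≤ 2} ≤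
      2 * s * (2 * Fintype.card ι) ^ (s - 1) := by
    have h1 := words_ge ev (κ₁ := κ₁) (κ₂ := κ₂) {q ∈ P | ¬ ∀ x, (q.2 x).natAbs ≤ 2}
      (fun w => w i = w j) (fun u => u k = u l ∧ u l = u m) (s - 1)! (s - 2)!
      (fun q hq => by
        obtain ⟨h1, h2, h3, h4, h5, h6⟩ := hmem q (mem_filter.1 hq).1
        rw [word_one hW hκ₁ q.1 h1 (by omega) i j hij]
        exact le_of_eq (by congr 1))
      (fun q hq => by
        obtain ⟨h1, h2, h3, h4, h5, h6⟩ := hmem q (mem_filter.1 hq).1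
        have h7 := (mem_filter.1 hq).2
        push Not at h7
        obtain ⟨x, hx⟩ := h7
        rw [word_three hW2 hκ₂ (-q.2) (by rw [nrm_neg]; exact h2) (by rw [ell_neg]; omega)
          ⟨x, by rw [Pi.neg_apply, Int.natAbs_neg]; omega⟩ k l m (by simp [hkl, hkm, hlm])]
        exact le_of_eq (by congr 1))
      (fun q hq => by
        obtain ⟨h1, h2, h3, h4, h5, h6⟩ := hmem q (mem_filter.1 hq).1
        rw [hcards, diff_even hL hPC h1 h2 h4 h3])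
      (fun q hq => (hmem q (mem_filter.1 hq).1).2.2.1)
    have h2 := (hZ (Sum.inr k) (Sum.inr l) (Sum.inr m) (Sum.inr n) (Sum.inl i) (Sum.inl j)
      (by simp [hij, hkl, hkm, hkn, hlm, hln, hmn])).2
    have h6 : #{z ∈ Zr ev (κ₁ ⊕ κ₂) | z (Sum.inl i) = z (Sum.inl j) ∧
        z (Sum.inr k) = z (Sum.inr l) ∧ z (Sum.inr l) = z (Sum.inr m)} ≤
        s ! * (2 * Fintype.card ι) ^ (s - 1) := by
      refine le_trans (card_le_card fun z hz => ?_) h2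
      rw [mem_filter] at hz ⊢
      exact ⟨hz.1, hz.2.2.1, hz.2.2.2, hz.2.1⟩
    have h3 := h1.trans h6
    rw [hf] at h3
    have h4 : (s - 1)! * (#{q ∈ P | ¬ ∀ x, (q.2 x).natAbs ≤ 2} * (s - 2)!) ≤
        (s - 1)! * (s * (2 * Fintype.card ι) ^ (s - 1)) := by
      calc (s - 1)! * (#{q ∈ P | ¬ ∀ x, (q.2 x).natAbs ≤ 2} * (s - 2)!) =
          #{q ∈ P | ¬ ∀ x, (q.2 x).natAbs ≤ 2} * ((s - 1)! * (s - 2)!) := by ring
        _ ≤ s * (s - 1)! * (2 * Fintype.card ι) ^ (s - 1) := h3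
        _ = _ := by ring
    have h5 := Nat.le_of_mul_le_mul_left h4 hp
    calc 2 * (s - 2)! * #{q ∈ P | ¬ ∀ x, (q.2 x).natAbs ≤ 2} =
        2 * (#{q ∈ P | ¬ ∀ x, (q.2 x).natAbs ≤ 2} * (s - 2)!) := by ring
      _ ≤ 2 * (s * (2 * Fintype.card ι) ^ (s - 1)) := Nat.mul_le_mul_left _ h5
      _ = _ := by ring
  have hsum : #P = #{q ∈ P | ∀ x, (q.2 x).natAbs ≤ 2} + #{q ∈ P | ¬ ∀ x, (q.2 x).natAbs ≤ 2} :=
    (card_filter_add_card_filter_not _).symm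
  obtain ⟨t, rfl⟩ : ∃ t, s = t + 2 := ⟨s - 2, by omega⟩
  rw [hsum, mul_add]
  calc _ ≤ (t + 2) * (t + 2 - 2) * (2 * Fintype.card ι) ^ (t + 2 - 1) +
        2 * (t + 2) * (2 * Fintype.card ι) ^ (t + 2 - 1) := Nat.add_le_add hX hX'
    _ = (t + 2) ^ 2 * (2 * Fintype.card ι) ^ (t + 2 - 1) := by
        rw [Nat.add_sub_cancel]
        ring

lemma pq_two (hL : T_L) (hW : T_W) (hZU : T_ZU) {s : ℕ} (hs : 4 ≤ s)
    {G : Type} [AddCommGroup G] (ev : (ι → ℤ) →+ G) (hPC : PC s ev)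
    {κ₁ κ₂ : Type} [Fintype κ₁] [Fintype κ₂] (hκ₁ : Fintype.card κ₁ = s)
    (hκ₂ : Fintype.card κ₂ = s + 1) (i j : κ₁) (hij : i ≠ j) (k l : κ₂) (hkl : k ≠ l) :
    (s - 2)! * #{q ∈ Vn ι s ×ˢ Vn ι (s + 1) | ev q.1 = ev q.2 ∧ ell q.1 + 1 = s ∧
        ell q.2 = s} ≤ s * (2 * Fintype.card ι) ^ (s - 1) := by
  have hcards : Fintype.card (κ₁ ⊕ κ₂) = 2 * s + 1 := by
    rw [Fintype.card_sum, hκ₁, hκ₂]; ring
  set P := {q ∈ Vn ι s ×ˢ Vn ι (s + 1) | ev q.1 = ev q.2 ∧ ell q.1 + 1 = s ∧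
        ell q.2 = s} with hP
  have hmem : ∀ q ∈ P, nrm q.1 = s ∧ nrm q.2 = s + 1 ∧ ev q.1 = ev q.2 ∧
      ell q.1 + 1 = s ∧ ell q.2 = s := by
    intro q hq
    rw [hP, mem_filter, mem_product] at hq
    exact ⟨nrm_of_mem hq.1.1, nrm_of_mem hq.1.2, hq.2.1, hq.2.2.1, hq.2.2.2⟩
  have h1 := words_ge ev (κ₁ := κ₁) (κ₂ := κ₂) P
      (fun w => w i = w j) (fun u => u k = u l) (s - 2)! (s - 1)!
      (fun q hq => by
        obtain ⟨h1, h2, h3, h4, h5⟩ := hmem q hq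
        rw [word_one hW hκ₁ q.1 h1 (by omega) i j hij])
      (fun q hq => by
        obtain ⟨h1, h2, h3, h4, h5⟩ := hmem q hq
        rw [word_one hW hκ₂ (-q.2) (by rw [nrm_neg]; exact h2) (by rw [ell_neg]; omega) k l hkl]
        exact le_of_eq (by congr 1))
      (fun q hq => by
        obtain ⟨h1, h2, h3, h4, h5⟩ := hmem q hq
        rw [hcards, diff_odd hL hPC h1 h2 h3])
      (fun q hq => (hmem q hq).2.2.1)
  have h2 := (hZU s ι G ev hPC hs (κ₁ ⊕ κ₂)).1 hcards (Sum.inl i) (Sum.inl j) (Sum.inr k)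
    (Sum.inr l) (nodup_sum hij hkl)
  have h3 := h1.trans h2
  have hf : s ! = s * (s - 1)! := (Nat.mul_factorial_pred (by omega)).symm
  have hp : 0 < (s - 1)! := Nat.factorial_pos _
  rw [hf] at h3
  have h4 : (s - 1)! * ((s - 2)! * #P) ≤ (s - 1)! * (s * (2 * Fintype.card ι) ^ (s - 1)) := by
    calc (s - 1)! * ((s - 2)! * #P) = #P * ((s - 2)! * (s - 1)!) := by ring
      _ ≤ s * (s - 1)! * (2 * Fintype.card ι) ^ (s - 1) := h3
      _ = _ := by ring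
  exact Nat.le_of_mul_le_mul_left h4 hp

theorem pq (hL : T_L) (hW : T_W) (hW2 : T_W2) (hZU : T_ZU) : T_PQ := by
  intro s ι _ G _ ev hPC hs
  refine ⟨?_, ?_⟩
  · exact pq_one hL hW hW2 hZU hs ev hPC (Fintype.card_fin (s + 1)) (Fintype.card_fin (s + 1))
      ⟨0, by omega⟩ ⟨1, by omega⟩ (by simp) ⟨0, by omega⟩ ⟨1, by omega⟩ ⟨2, by omega⟩
      ⟨3, by omega⟩ (by simp)
  · exact pq_two hL hW hZU hs ev hPC (Fintype.card_fin s) (Fintype.card_fin (s + 1))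
      ⟨0, by omega⟩ ⟨1, by omega⟩ (by simp) ⟨0, by omega⟩ ⟨1, by omega⟩ (by simp)

end

end Pool.Agent.H4.GC
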